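import Pool.Agent.Helper44.Flip.Red
import Pool.Agent.Helper20.Flip.Sh.Par

/-!
# Module SRED: the reduction for SHORTEST is computable in polynomial time
-/

set_option autoImplicit false

namespace Pool.Agent.Helper20.Flip.Sh

namespace RedAux

open Pool.Agent.Helper96
open Pool.Agent.Helper20.Flip.RedAux (val_append val_replicate shl val_shl val_lt addC val_addC
  length_addC pad val_pad length_pad addB val_addB length_addB sumB val_sumB sz_bits_le addC_foldl
  sum_val_lt sum_getD sum_Icc_getD pow_aux sum_smul ratVal_nat)

/-! ### binary subtraction -/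

/-- `x - y + 2 ^ L`, where `L` is the larger one of the numbers of digits -/
def subC (x y : List Bool) : List Bool := addC ((pad x y).zip ((pad y x).map fun b => !b)) true

theorem val_compl (y : List Bool) : val (y.map fun b => !b) + val y + 1 = 2 ^ y.length := by
  induction y with
  | nil => simp [val]
  | cons b y ih =>
    rw [List.map_cons, val, val, List.length_cons, pow_succ, ← ih]
    cases b <;> simp <;> ring

theorem val_subC (x y : List Bool) :
    val (subC x y) + val y = val x + 2 ^ (max x.length y.length) := by
  have h : (pad x y).length = ((pad y x).map fun b => !b).length := by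
    rw [List.length_map, length_pad, length_pad, max_comm]
  rw [subC, val_addC, List.map_fst_zip (le_of_eq h), List.map_snd_zip (le_of_eq h.symm), val_pad]
  have h1 := val_compl (pad y x)
  rw [val_pad, length_pad, max_comm] at h1
  simp only [if_true]
  omega

theorem length_subC (x y : List Bool) : (subC x y).length = max x.length y.length + 1 := by
  have h : (pad x y).length = ((pad y x).map fun b => !b).length := by
    rw [List.length_map, length_pad, length_pad, max_comm]
  rw [subC, length_addC, List.length_zip, ← h, min_self, length_pad]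

theorem val_take (L : ℕ) (z : List Bool) (hz : z.length = L + 1) :
    val z = val (z.take L) + 2 ^ L * (if z.getD L false then 1 else 0) := by
  have h1 : z = z.take L ++ [z.getD L false] := by
    conv_lhs => rw [← List.take_append_drop L z]
    congr 1
    have h2 : (z.drop L).length = 1 := by rw [List.length_drop]; omega
    obtain ⟨b, hb⟩ := List.length_eq_one_iff.1 h2
    rw [hb]
    have h3 : z.getD L false = (z.drop L).getD 0 false := by
      rw [List.getD_eq_getElem?_getD, List.getD_eq_getElem?_getD, List.getElem?_drop, Nat.add_zero]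
    rw [h3, hb]
    rfl
  have h4 : (z.take L).length = L := by rw [List.length_take]; omega
  conv_lhs => rw [h1]
  rw [val_append, h4]
  simp [val]

/-- sign and absolute value of the difference -/
def diffB (x y : List Bool) : Bool × List Bool :=
  (!(subC x y).getD (x.length + (y.length - x.length)) false,
    if (subC x y).getD (x.length + (y.length - x.length)) false = true then
      (subC x y).take (x.length + (y.length - x.length)) else
      (subC y x).take (x.length + (y.length - x.length)))

/-- code of the difference of two natural numbers -/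
def diffR (x y : List Bool) : RatCode := ((diffB x y).1, (diffB x y).2, [true])

theorem diffB_val (x y : List Bool) :
    (if (diffB x y).1 then -1 else 1) * (val (diffB x y).2 : ℝ) = (val x : ℝ) - val y := by
  have h1 := val_subC x y
  have h2 := val_subC y x
  have h3 := val_take _ _ (length_subC x y)
  have h4 := val_take _ _ (length_subC y x)
  have h5 := val_lt ((subC x y).take (max x.length y.length))
  have h6 := val_lt ((subC y x).take (max y.length x.length))
  rw [List.length_take, length_subC, min_eq_left (by omega)] at h5 h6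
  rw [diffB, show x.length + (y.length - x.length) = max x.length y.length by omega]
  rw [max_comm y.length x.length] at h2 h4 h6
  set L := max x.length y.length
  set A := val ((subC x y).take L)
  set B := val ((subC y x).take L)
  set bx := (subC x y).getD L false
  set bY := (subC y x).getD L false
  rw [h3] at h1
  rw [h4] at h2
  cases hbx : bx with
  | true =>
    simp only [hbx, if_true, mul_one, Bool.not_true, Bool.false_eq_true, if_false, one_mul] at h1 ⊢
    have h7 : A + val y = val x := by omega
    have h8 : (A : ℝ) + val y = val x := by exact_mod_cast h7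
    rw [← h8]; ring
  | false =>
    simp only [hbx, Bool.false_eq_true, if_false, mul_zero, add_zero, Bool.not_false, if_true] at h1 ⊢
    have h7 : B + val x = val y := by
      cases hbY : bY with
      | true =>
        simp only [hbY, if_true, mul_one] at h2
        omega
      | false =>
        simp only [hbY, Bool.false_eq_true, if_false, mul_zero, add_zero] at h2
        omega
    have h8 : (B : ℝ) + val x = val y := by exact_mod_cast h7
    rw [← h8]; ring

theorem diffR_val (x y : List Bool) : ratVal (diffR x y) = (val x : ℝ) - val y := by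
  rw [diffR, ratVal]
  have h1 : (val [true] : ℝ) = 1 := by simp [val]
  simp only [h1, div_one]
  rw [diffB_val]

/-! ### polynomial time -/

section
variable {α : Type} [Enc α]

theorem poly_addC' {f : α → List (Bool × Bool)} (c : Bool) (hf : Poly f) :
    Poly (fun a => addC (f a) c) := by
  obtain ⟨B, hB, hm, hs⟩ := hf.szPB
  have h1 := Poly.foldl' (f := f) (g := fun _ => (c, ([] : List Bool)))
    (h := fun _ (st : Bool × List Bool) (p : Bool × Bool) =>
      (((p.1 && p.2) || (p.1 && st.1) || (p.2 && st.1)), (Bool.xor (Bool.xor p.1 p.2) st.1) :: st.2)) hf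
    (Helper96.Poly.const _) (by fun_prop) (fun n => 4 * B n + 10) (by fun_prop) (by
      intro a l' hl'
      rw [sz_prod]
      have h2 : ∀ (l : List (Bool × Bool)) (st : Bool × List Bool), (l.foldl (fun (st : Bool × List Bool) (p : Bool × Bool) =>
          (((p.1 && p.2) || (p.1 && st.1) || (p.2 && st.1)), (Bool.xor (Bool.xor p.1 p.2) st.1) :: st.2)) st).2.length
            = l.length + st.2.length := by
        intro l
        induction l with
        | nil => intro st; simp
        | cons p l ih => intro st; rw [List.foldl_cons, ih]; simp; omega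
      have h3 := sz_bits_le (l'.foldl (fun (st : Bool × List Bool) (p : Bool × Bool) =>
          (((p.1 && p.2) || (p.1 && st.1) || (p.2 && st.1)), (Bool.xor (Bool.xor p.1 p.2) st.1) :: st.2)) (c, [])).2
      rw [h2] at h3
      have h4 := sz_bool_le (l'.foldl (fun (st : Bool × List Bool) (p : Bool × Bool) =>
          (((p.1 && p.2) || (p.1 && st.1) || (p.2 && st.1)), (Bool.xor (Bool.xor p.1 p.2) st.1) :: st.2)) (c, [])).1
      have h5 := length_lt_sz l'
      have h6 := (sz_prefix_le hl').trans (hs a)
      simp only [List.length_nil] at h3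
      omega)
  have h2 : Poly (fun a => ((f a).foldl (fun (st : Bool × List Bool) (p : Bool × Bool) =>
      (((p.1 && p.2) || (p.1 && st.1) || (p.2 && st.1)), (Bool.xor (Bool.xor p.1 p.2) st.1) :: st.2)) (c, [])).2.reverse ++
      [((f a).foldl (fun (st : Bool × List Bool) (p : Bool × Bool) =>
      (((p.1 && p.2) || (p.1 && st.1) || (p.2 && st.1)), (Bool.xor (Bool.xor p.1 p.2) st.1) :: st.2)) (c, [])).1]) :=
    Poly.append (Poly.reverse (Poly.snd h1)) (Poly.cons (Poly.fst h1) (Helper96.Poly.const _))
  refine h2.recast fun a => ?_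
  rw [addC_foldl]
  rfl

@[fun_prop]
theorem poly_subC {f g : α → List Bool} (hf : Poly f) (hg : Poly g) : Poly (fun a => subC (f a) (g a)) := by
  have h : Poly (fun a => (pad (f a) (g a)).zip ((pad (g a) (f a)).map fun b => !b)) := by
    unfold pad
    fun_prop
  exact poly_addC' true h

@[fun_prop]
theorem poly_diffR {f g : α → List Bool} (hf : Poly f) (hg : Poly g) : Poly (fun a => diffR (f a) (g a)) := by
  unfold diffR diffB
  fun_prop

end

/-! ### the reduction -/

abbrev Inp := List (List Bool) × List Bool

def nF (x : Inp) : ℕ := x.1.length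
def sF (x : Inp) : ℕ := (x.1.flatMap fun a => a).length + x.2.length + x.1.length + 1
def hF (x : Inp) : ℕ := 4 * sF x + 3 * nF x + 100
def gF (x : Inp) : ℕ := 2 * hF x + 3 * nF x + 60
def SF (x : Inp) : ℕ := 3 * hF x + gF x + 2 * nF x + 20
def aF (x : Inp) (i : ℕ) : List Bool := (x.1 ++ [[true], [true]]).getD i []
def pairF (x : Inp) (i : ℕ) : List (List Bool × List Bool × List Bool) :=
  [(shl (SF x) [true], if i = nF x + 1 then [] else shl (SF x - gF x + 3 + 2 * i) [true],
    if i = nF x + 1 then shl (SF x - gF x - hF x) (addB x.2 (false :: x.2)) else []),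
   (shl (SF x - hF x - 2 * i) (aF x i), shl (SF x - hF x - gF x + 2) (aF x i), [])]
def preF (x : Inp) : List (List Bool × List Bool × List Bool) :=
  [(shl (SF x) [true], [],
      addB (shl (SF x - gF x - 7) [true, false, true]) (shl (SF x + sF x + 4 - gF x - hF x) [true])),
   (shl (SF x - 3 * hF x) [true], shl (SF x - 3 * hF x - gF x - 7) [true], []),
   (shl (SF x) [true], shl (SF x - gF x - 7) [true, true, false, true, true], []),
   (shl (SF x - 2) [true], shl (SF x - gF x - 6) [true, false, false, true],
      shl (SF x + sF x - gF x - hF x - 2) [true, false, true, true, false, true]),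
   (shl (SF x - 3 * hF x) [true],
      shl (SF x - 3 * hF x - gF x - 9) [true, true, false, true, true, true, false, false, true], [])]
def vF (x : Inp) : List (List Bool × List Bool × List Bool) :=
  preF x ++ (shl (SF x) [true], shl (SF x - gF x + 1) [true], []) ::
    (List.range (nF x + 2)).flatMap (pairF x)
def ptF (x : Inp) (k : ℕ) : RatCode × RatCode :=
  ((false, sumB (((vF x).take k).map Prod.fst), [true]),
    diffR (sumB (((vF x).take k).map fun q => q.2.1)) (sumB (((vF x).take k).map fun q => q.2.2)))
def vertF (x : Inp) : List (RatCode × RatCode) :=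
  (List.range (2 * nF x + 11)).map (ptF x) ++
    [((false, [], [true]), (false, sumB (List.replicate (2 * nF x + 11) (shl (SF x + 2) [true])), [true]))]
def F (x : Inp) : List (RatCode × RatCode) × List Bool :=
  (vertF x, addB (shl (hF x - sF x - 8) [true]) (shl (hF x - 3 * sF x - 16) [true]))

section
variable {α : Type} [Enc α]

@[fun_prop]
theorem poly_nF {f : α → Inp} (hf : Poly f) : Poly (fun a => nF (f a)) := by
  unfold nF; fun_prop

@[fun_prop]
theorem poly_sF {f : α → Inp} (hf : Poly f) : Poly (fun a => sF (f a)) := by
  unfold sF; fun_prop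

@[fun_prop]
theorem poly_hF {f : α → Inp} (hf : Poly f) : Poly (fun a => hF (f a)) := by
  unfold hF; fun_prop

@[fun_prop]
theorem poly_gF {f : α → Inp} (hf : Poly f) : Poly (fun a => gF (f a)) := by
  unfold gF; fun_prop

@[fun_prop]
theorem poly_SF {f : α → Inp} (hf : Poly f) : Poly (fun a => SF (f a)) := by
  unfold SF; fun_prop

@[fun_prop]
theorem poly_aF {f : α → Inp} {i : α → ℕ} (hf : Poly f) (hi : Poly i) : Poly (fun a => aF (f a) (i a)) := by
  unfold aF; fun_prop

@[fun_prop]
theorem poly_pairF {f : α → Inp} {i : α → ℕ} (hf : Poly f) (hi : Poly i) :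
    Poly (fun a => pairF (f a) (i a)) := by
  unfold pairF; fun_prop

@[fun_prop]
theorem poly_preF {f : α → Inp} (hf : Poly f) : Poly (fun a => preF (f a)) := by
  unfold preF; fun_prop

@[fun_prop]
theorem poly_vF {f : α → Inp} (hf : Poly f) : Poly (fun a => vF (f a)) := by
  unfold vF; fun_prop

@[fun_prop]
theorem poly_ptF {f : α → Inp} {i : α → ℕ} (hf : Poly f) (hi : Poly i) :
    Poly (fun a => ptF (f a) (i a)) := by
  unfold ptF; fun_prop

theorem poly_F : Poly F := by
  unfold F vertF; fun_prop

end

/-! ### correctness -/

/-- the parameters attached to an input -/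
def par (x : Inp) (hx : ∀ a ∈ x.1, 0 < val a) : Par where
  n := nF x
  a := fun j => if 1 ≤ j ∧ j ≤ nF x then val (x.1.getD (j - 1) []) else 1
  T := val x.2
  s := sF x
  h := hF x
  g := gF x
  ha := by
    intro j
    split_ifs with h
    · apply hx
      rw [List.getD_eq_getElem _ _ (by unfold nF at h; omega)]
      exact List.getElem_mem _
    · exact one_pos
  ha' := by
    intro j hj
    rw [if_neg (by omega)]
  hs := by
    have h1 : ∑ j ∈ Finset.Icc 1 (nF x), (if 1 ≤ j ∧ j ≤ nF x then val (x.1.getD (j - 1) []) else 1) =
        (x.1.map val).sum := sum_Icc_getD x.1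
    rw [h1]
    refine (sum_val_lt x.1).trans_le (Nat.pow_le_pow_right (by norm_num) ?_)
    unfold sF; omega
  hT := by
    refine (val_lt x.2).trans_le (Nat.pow_le_pow_right (by norm_num) ?_)
    unfold sF; omega
  hh := rfl
  hg := rfl

theorem val_aF (x : Inp) (hx : ∀ a ∈ x.1, 0 < val a) (i : ℕ) (hi : i < nF x + 2) :
    val (aF x i) = (par x hx).a (i + 1) := by
  have e : (par x hx).a (i + 1) = if 1 ≤ i + 1 ∧ i + 1 ≤ nF x then val (x.1.getD (i + 1 - 1) []) else 1 := rfl
  rw [e, aF]
  by_cases h : i < nF x
  · rw [if_pos (by omega), Nat.add_sub_cancel, List.getD_append _ _ _ _ h]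
  · rw [if_neg (by omega), List.getD_append_right _ _ _ _ (by unfold nF at h; omega)]
    have h2 : i - x.1.length = 0 ∨ i - x.1.length = 1 := by unfold nF at hi h; omega
    rcases h2 with h2 | h2 <;> rw [h2] <;> simp [val]

/-- the vector with given coordinates -/
noncomputable def vecOf (p : List Bool × List Bool × List Bool) : Pt :=
  ((val p.1 : ℝ), (val p.2.1 : ℝ) - (val p.2.2 : ℝ))

theorem map_pairF (x : Inp) (hx : ∀ a ∈ x.1, 0 < val a) (i : ℕ) (hi : i < nF x + 2) :
    (pairF x i).map vecOf = ((par x hx).pair (i + 1)).map (fun v => (2 : ℝ) ^ SF x • v) := by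
  have hS : SF x = 3 * hF x + gF x + 2 * nF x + 20 := rfl
  rw [pairF, Par.pair, List.map_cons, List.map_cons, List.map_nil, List.map_cons, List.map_cons, List.map_nil]
  have hη : (par x hx).η = 1 / 2 ^ hF x := rfl
  have hτ : (par x hx).τ = 1 / 2 ^ gF x := rfl
  have hn : (par x hx).n = nF x := rfl
  have hT : (par x hx).T = val x.2 := rfl
  have hv : (val (aF x i) : ℝ) = (par x hx).a (i + 1) := by rw [val_aF x hx i hi]
  have hv1 : val [true] = 1 := rfl
  have hv0 : val [] = 0 := rfl
  have h4 : (4 : ℝ) ^ (i + 1) = 2 ^ (2 * i) * 4 := by rw [pow_succ, pow_mul]; norm_num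
  congr 1
  · rw [vecOf, val_shl, Prod.smul_mk, hv1]
    refine Prod.ext ?_ ?_
    · push_cast; simp
    · simp only [smul_eq_mul]
      rw [hτ, hη, hn, hT]
      by_cases h : i = nF x + 1
      · rw [if_pos h, if_pos h, if_pos (by omega), hv0, val_shl, val_addB]
        simp only [val, Bool.false_eq_true, if_false]
        push_cast
        rw [show SF x - gF x - hF x = SF x - (gF x + hF x) by omega, pow_aux _ _ (by omega), pow_add]
        field_simp
        ring
      · rw [if_neg h, if_neg h, if_neg (by omega), Par.R, h4, hv0, val_shl, hv1]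
        push_cast
        rw [show SF x - gF x + 3 + 2 * i = (SF x - gF x) + (3 + 2 * i) by ring, pow_add, pow_add,
          pow_aux _ _ (by omega)]
        field_simp
        norm_num
        ring
  · congr 1
    rw [vecOf, val_shl, val_shl, Prod.smul_mk, hv0]
    refine Prod.ext ?_ ?_
    · simp only [smul_eq_mul]
      rw [Par.ε, hη, h4]
      push_cast
      rw [hv, show SF x - hF x - 2 * i = SF x - (hF x + 2 * i) by omega, pow_aux _ _ (by omega), pow_add]
      field_simp
    · simp only [smul_eq_mul]
      rw [Par.ε, hη, hτ, Par.R, h4]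
      push_cast
      rw [hv, show SF x - hF x - gF x + 2 = (SF x - (hF x + gF x)) + 2 by omega, pow_add, pow_aux _ _ (by omega),
        pow_add]
      field_simp
      norm_num
      ring

theorem map_preF (x : Inp) (hx : ∀ a ∈ x.1, 0 < val a) :
    (preF x).map vecOf = (par x hx).preV.map (fun v => (2 : ℝ) ^ SF x • v) := by
  have hS : SF x = 3 * hF x + gF x + 2 * nF x + 20 := rfl
  have hh : hF x = 4 * sF x + 3 * nF x + 100 := rfl
  have hη : (par x hx).η = 1 / 2 ^ hF x := rfl
  have hτ : (par x hx).τ = 1 / 2 ^ gF x := rfl
  have hs : (par x hx).s = sF x := rfl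
  have hδ : (par x hx).δ = 1 / 2 ^ hF x * 2 ^ sF x := rfl
  have hv0 : val [] = 0 := rfl
  have hv1 : val [true] = 1 := rfl
  have hv5 : val [true, false, true] = 5 := rfl
  have hv27 : val [true, true, false, true, true] = 27 := rfl
  have hv9 : val [true, false, false, true] = 9 := rfl
  have hv45 : val [true, false, true, true, false, true] = 45 := rfl
  have hv315 : val [true, true, false, true, true, true, false, false, true] = 315 := rfl
  rw [preF, Par.preV]
  refine congrArg₂ List.cons ?_ (congrArg₂ List.cons ?_ (congrArg₂ List.cons ?_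
    (congrArg₂ List.cons ?_ (congrArg₂ List.cons ?_ rfl))))
  · simp only [vecOf, Prod.smul_mk, smul_eq_mul, val_shl, val_addB, hv0, hv1, hv5]
    refine Prod.ext ?_ ?_
    · push_cast; simp
    · simp only [Par.vZ, hτ, hδ]
      push_cast
      rw [show SF x - gF x - 7 = SF x - (gF x + 7) by omega,
        show SF x + sF x + 4 - gF x - hF x = SF x - (gF x + hF x) + (sF x + 4) by omega,
        pow_add (2 : ℝ) (SF x - (gF x + hF x)),
        pow_aux (SF x) (gF x + 7) (by omega), pow_aux (SF x) (gF x + hF x) (by omega),
        pow_add, pow_add, pow_add]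
      field_simp
      ring
  · simp only [vecOf, Prod.smul_mk, smul_eq_mul, val_shl, hv0, hv1]
    refine Prod.ext ?_ ?_
    · simp only [hη]
      push_cast
      rw [show SF x - 3 * hF x = SF x - hF x * 3 by omega, pow_aux _ _ (by omega), pow_mul]
      field_simp
    · simp only [hτ, hη]
      push_cast
      rw [show SF x - 3 * hF x - gF x - 7 = SF x - (hF x * 3 + (gF x + 7)) by omega,
        pow_aux _ _ (by omega), pow_add, pow_add, pow_mul]
      field_simp
      norm_num
  · simp only [vecOf, Prod.smul_mk, smul_eq_mul, val_shl, hv0, hv1, hv27]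
    refine Prod.ext ?_ ?_
    · push_cast; simp
    · simp only [Par.vA, hτ]
      push_cast
      rw [show SF x - gF x - 7 = SF x - (gF x + 7) by omega, pow_aux _ _ (by omega), pow_add]
      field_simp
      norm_num
      try ring
  · simp only [vecOf, Prod.smul_mk, smul_eq_mul, val_shl, hv1, hv9, hv45]
    refine Prod.ext ?_ ?_
    · push_cast
      rw [pow_aux _ _ (by omega)]
      norm_num
    · simp only [Par.vB, hτ, hδ]
      push_cast
      rw [show SF x - gF x - 6 = SF x - (gF x + 6) by omega,
        show SF x + sF x - gF x - hF x - 2 = SF x - (gF x + hF x + 2) + sF x by omega,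
        pow_add (2 : ℝ) (SF x - (gF x + hF x + 2)),
        pow_aux (SF x) (gF x + 6) (by omega), pow_aux (SF x) (gF x + hF x + 2) (by omega),
        pow_add, pow_add, pow_add]
      field_simp
      ring
  · simp only [vecOf, Prod.smul_mk, smul_eq_mul, val_shl, hv0, hv1, hv315]
    refine Prod.ext ?_ ?_
    · simp only [hη]
      push_cast
      rw [show SF x - 3 * hF x = SF x - hF x * 3 by omega, pow_aux _ _ (by omega), pow_mul]
      field_simp
    · simp only [hτ, hη]
      push_cast
      rw [show SF x - 3 * hF x - gF x - 9 = SF x - (hF x * 3 + (gF x + 9)) by omega,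
        pow_aux _ _ (by omega), pow_add, pow_add, pow_mul]
      field_simp
      norm_num
      try ring

theorem map_vF (x : Inp) (hx : ∀ a ∈ x.1, 0 < val a) :
    (vF x).map vecOf = (par x hx).vecs.map (fun v => (2 : ℝ) ^ SF x • v) := by
  have hS : SF x = 3 * hF x + gF x + 2 * nF x + 20 := rfl
  have hτ : (par x hx).τ = 1 / 2 ^ gF x := rfl
  have hn : (par x hx).n = nF x := rfl
  have hv1 : val [true] = 1 := rfl
  have hv0 : val [] = 0 := rfl
  rw [vF, Par.vecs, List.map_append, List.map_append, List.map_cons, List.map_cons,
    List.map_flatMap, List.map_flatMap, map_preF x hx]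
  congr 2
  · rw [vecOf, val_shl, val_shl, Prod.smul_mk, hv1, hv0]
    refine Prod.ext ?_ ?_
    · push_cast; simp
    · simp only [smul_eq_mul]
      rw [hτ, Par.R]
      push_cast
      rw [pow_succ, pow_aux _ _ (by omega)]
      field_simp
      try norm_num
  · rw [hn]
    refine List.flatMap_congr fun i hi => ?_
    exact map_pairF x hx i (List.mem_range.1 hi)

theorem sum_map_vecOf (l : List (List Bool × List Bool × List Bool)) :
    (l.map vecOf).sum = (((((l.map Prod.fst).map val).sum : ℕ) : ℝ),
      ((((l.map fun q => q.2.1).map val).sum : ℕ) : ℝ) - ((((l.map fun q => q.2.2).map val).sum : ℕ) : ℝ)) := by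
  induction l with
  | nil => simp; rfl
  | cons a l ih =>
    simp only [List.map_cons, List.sum_cons]
    rw [ih, vecOf]
    push_cast
    refine Prod.ext ?_ ?_
    · rfl
    · change _ + _ = _
      simp only
      ring

theorem ptF_val (x : Inp) (hx : ∀ a ∈ x.1, 0 < val a) (k : ℕ) :
    ((ratVal (ptF x k).1, ratVal (ptF x k).2) : Pt) = (2 : ℝ) ^ SF x • ((par x hx).vecs.take k).sum := by
  rw [ptF, ratVal_nat, val_sumB, ← sum_smul, List.map_take (f := fun v => (2 : ℝ) ^ SF x • v),
    ← map_vF, ← List.map_take, sum_map_vecOf]
  refine Prod.ext rfl ?_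
  simp only
  rw [diffR_val, val_sumB, val_sumB]

theorem apex_val (x : Inp) :
    ratVal (false, sumB (List.replicate (2 * nF x + 11) (shl (SF x + 2) [true])), [true]) =
      2 ^ SF x * (4 * ((2 * (nF x : ℝ) + 10) + 1)) := by
  rw [ratVal_nat, val_sumB, List.map_replicate, List.sum_replicate, val_shl]
  simp only [val, smul_eq_mul]
  push_cast
  rw [pow_add]
  simp
  ring

end RedAux

open Pool.Agent.Helper96 in
theorem exists_red : ∃ F : List (List Bool) × List Bool → List (RatCode × RatCode) × List Bool,
    Poly F ∧ ∀ x : List (List Bool) × List Bool, (∀ a ∈ x.1, 0 < val a) →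
      ∃ (P : Par) (S : ℕ), P.n = x.1.length ∧
        (∀ j, 1 ≤ j → j ≤ P.n → P.a j = val (x.1.getD (j - 1) [])) ∧ P.T = val x.2 ∧
        (F x).1.length = P.N + 2 ∧
        (∀ q ∈ (F x).1, val q.1.2.2 ≠ 0 ∧ val q.2.2.2 ≠ 0) ∧ val (F x).2 = P.K ∧
        ∀ k, k < P.N + 2 →
          ((F x).1.map fun q => ((ratVal q.1, ratVal q.2) : Pt)).getD k (0, 0) =
            (2 : ℝ) ^ S • P.vtx k := by
  refine ⟨RedAux.F, RedAux.poly_F, fun x hx => ⟨RedAux.par x hx, RedAux.SF x, rfl, ?_, rfl, ?_, ?_, ?_, ?_⟩⟩
  · intro j h1 h2
    exact if_pos ⟨h1, h2⟩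
  · simp [RedAux.F, RedAux.vertF, Par.N, RedAux.par]
  · intro q hq
    simp only [RedAux.F, RedAux.vertF, List.mem_append, List.mem_map, List.mem_singleton] at hq
    rcases hq with ⟨k, _, rfl⟩ | rfl
    · simp [RedAux.ptF, RedAux.diffR, val]
    · simp [val]
  · change val (Flip.RedAux.addB (Flip.RedAux.shl (RedAux.hF x - RedAux.sF x - 8) [true])
      (Flip.RedAux.shl (RedAux.hF x - 3 * RedAux.sF x - 16) [true])) =
      2 ^ (RedAux.hF x - RedAux.sF x - 8) + 2 ^ (RedAux.hF x - 3 * RedAux.sF x - 16)
    rw [Flip.RedAux.val_addB, Flip.RedAux.val_shl, Flip.RedAux.val_shl]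
    simp [val]
  · intro k hk
    have hN : (RedAux.par x hx).N = 2 * RedAux.nF x + 10 := rfl
    have e : (RedAux.F x).1 = RedAux.vertF x := rfl
    rw [hN] at hk
    rw [e, RedAux.vertF, List.map_append, Par.vtx, hN]
    by_cases h : k < 2 * RedAux.nF x + 11
    · rw [if_pos (by omega), List.getD_append _ _ _ _ (by simpa using h), ← RedAux.ptF_val,
        List.getD_eq_getElem _ _ (by simpa using h)]
      simp
    · have hk' : k = 2 * RedAux.nF x + 11 := by omega
      rw [if_neg (by omega), List.getD_append_right _ _ _ _ (by simpa using h)]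
      have h0 : k - (List.map (fun q : RatCode × RatCode => ((ratVal q.1, ratVal q.2) : Pt))
          (List.map (RedAux.ptF x) (List.range (2 * RedAux.nF x + 11)))).length = 0 := by
        simp; omega
      rw [h0, List.map_cons, List.getD_cons_zero, RedAux.apex_val, Prod.smul_mk]
      refine Prod.ext ?_ ?_
      · simp [ratVal, val]
      · simp only [smul_eq_mul]
        push_cast
        ring

end Pool.Agent.Helper20.Flip.Sh
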